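import Pool.Agent.L0h94.SP.StmE

/-!
# Project SP (helper94), part WTS (helper65): the weights

After `N771/PF/Core.lean`.
-/

set_option autoImplicit false
set_option linter.all false

open Polynomial IsDedekindDomain NumberField
open scoped Classical

namespace Pool.Agent.L0h65.SP

open Pool.Agent.L0h94.SP
open Pool.Agent.N352.PJ (Mt Typ dd)
open Pool.Agent.N783.PQ (LocIm)
open Pool.Agent.N874.PP (Ev Sq1 U0)
open Pool.Agent.N874.JM (LocF)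
open Pool.Agent.N783.PF

variable {F : Type} [Field F] [NumberField F]

/-- two different rational primes do not lie in the same proper ideal -/
theorem two_primes {R : Type} [CommRing R] {I : Ideal R} (hI : I ≠ ⊤) {q q' : ℕ} (hq : q.Prime)
    (hq' : q'.Prime) (hne : q ≠ q') (h : (q : R) ∈ I) (h' : (q' : R) ∈ I) : False := by
  have hco : Nat.Coprime q q' := (Nat.coprime_primes hq hq').2 hne
  have h3 : IsCoprime (q : ℤ) (q' : ℤ) := Nat.isCoprime_iff_coprime.2 hco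
  obtain ⟨a, b, hab⟩ := h3
  apply hI
  rw [Ideal.eq_top_iff_one]
  have h4 : (1 : R) = (a : R) * (q : R) + (b : R) * (q' : R) := by
    have := congrArg (fun z : ℤ => (z : R)) hab
    push_cast at this
    exact this.symm
  rw [h4]
  exact Ideal.add_mem _ (Ideal.mul_mem_left _ _ h) (Ideal.mul_mem_left _ _ h')

theorem rd_eq {𝔞 : Ideal (𝓞 F)} {f f' : (𝓞 F)[X]} (h : Cg 𝔞 f f') : rd 𝔞 f = rd 𝔞 f' := by
  ext j
  rw [coeff_map, coeff_map, Ideal.Quotient.mk_eq_mk_iff_sub_mem]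
  exact h j

/-- `X * irreducible` is separable -/
theorem sep_q {g W : ℕ} {f : (𝓞 F)[X]} {S : Finset ℕ} {𝔮 : ℕ → Ideal (𝓞 F)}
    {r P : ℕ → (𝓞 F)[X]} (hg : 1 ≤ g) (hS : GoodS g W S 𝔮 r P) {q : ℕ} (hq : q ∈ S)
    (hcg : Cg (𝔮 q) f (X * r q)) : (𝔮 q) ≠ ⊥ ∧ (rd (𝔮 q) f).Separable := by
  obtain ⟨hqp, -, -, -, -, hpr, hmem, hrm, hrd, hirr, -⟩ := hS q hq
  have hbot : 𝔮 q ≠ ⊥ := by
    intro h0
    rw [h0, Ideal.mem_bot] at hmem
    exact hqp.ne_zero (by exact_mod_cast hmem)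
  refine ⟨hbot, ?_⟩
  haveI := hpr
  haveI hmax : (𝔮 q).IsMaximal := hpr.isMaximal hbot
  haveI hfin : Finite (𝓞 F ⧸ 𝔮 q) := Ideal.finiteQuotientOfFreeOfNeBot _ hbot
  letI : Field (𝓞 F ⧸ 𝔮 q) := Ideal.Quotient.field _
  rw [rd_eq hcg]
  have e : rd (𝔮 q) (X * r q) = X * rd (𝔮 q) (r q) := by
    rw [rd, Polynomial.map_mul, map_X]
  rw [e]
  have hm : (rd (𝔮 q) (r q)).Monic := hrm.map _
  have hd : (rd (𝔮 q) (r q)).natDegree = 2 * g := by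
    rw [rd, hrm.natDegree_map, hrd]
  refine (separable_X).mul (PerfectField.separable_of_irreducible hirr) ?_
  rw [(irreducible_X).coprime_iff_not_dvd]
  intro hdv
  have h1 : Associated X (rd (𝔮 q) (r q)) := (irreducible_X).associated_of_dvd hirr hdv
  have h2 := natDegree_eq_of_degree_eq (degree_eq_degree_of_associated h1)
  rw [hd, natDegree_X] at h2
  omega

theorem t_WTS : S_LBM → S_SDM → S_TVI → S_NS → S_PARQ → S_EXQ → S_WTS := by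
  intro hLBM hSDM hTVI hNS _ hEXQ F _ _
  refine ⟨fun Y => if h : 0 < ∏ q ∈ Y, q then (hLBM 1 (∏ q ∈ Y, q) F le_rfl h).choose else 0, ?_⟩
  intro L _ _ _ f f₁ θ B W M κ0 T 𝔮 r P hG hsq hBlk hGF 𝔔 hBig i hi α hα hN hev hns hDev
  have hgood := hBlk.good
  have hqp : ∀ q ∈ sup T M, q.Prime := fun q hq => (hgood q hq).1
  have hsub : sup T i ⊆ sup T M := by
    intro q hq
    rw [sup, Finset.mem_biUnion] at hq ⊢
    obtain ⟨j, hj, hqj⟩ := hq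
    exact ⟨j, Finset.mem_range.2 (lt_trans (Finset.mem_range.1 hj) hi), hqj⟩
  have hTi : T i ⊆ sup T M \ sup T i := by
    intro q hq
    rw [Finset.mem_sdiff]
    refine ⟨Finset.mem_biUnion.2 ⟨i, Finset.mem_range.2 hi, hq⟩, fun h => ?_⟩
    obtain ⟨j, hj, hqj⟩ := Finset.mem_biUnion.1 h
    have hj' := Finset.mem_range.1 hj
    exact Finset.disjoint_left.1 (hBlk.disj i hi j (hj'.trans hi) hj'.ne') hq hqj
  have hmpos : 0 < ∏ q ∈ sup T i, q := Finset.prod_pos fun q hq => (hqp q (hsub hq)).pos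
  -- the constant
  obtain ⟨κ, hκdef⟩ : ∃ κ, κ = (hLBM 1 (∏ q ∈ sup T i, q) F le_rfl hmpos).choose := ⟨_, rfl⟩
  have hκ := (hLBM 1 (∏ q ∈ sup T i, q) F le_rfl hmpos).choose_spec
  rw [← hκdef] at hκ
  obtain ⟨N, hN4, hcls⟩ := hGF.cls i hi
  have hbig := hBlk.big i hi
  simp only [dif_pos hmpos] at hN4 hcls hbig
  rw [← hκdef] at hN4 hcls hbig
  have hgood' : GoodS 1 κ (sup T M \ sup T i) 𝔮 r P := by
    intro q hq
    obtain ⟨hqM, hqi⟩ := Finset.mem_sdiff.1 hq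
    obtain ⟨b1, b2, b3⟩ := hgood q hqM
    exact ⟨b1, hbig q hqM hqi, b3⟩
  have hcon := hGF.fam.con
  have hcg : ∀ q ∈ sup T M, Cg (𝔮 q) f (X * r q) := by
    intro q hq j
    obtain ⟨-, -, -, -, -, -, hmem, -, -, -, -, -, -, hcg, -⟩ := hgood q hq
    have h1 := hcon q hq j
    have h2 : sp F q ≤ 𝔮 q := by
      rw [sp, Ideal.span_singleton_le_iff_mem]
      exact hmem
    have h3 := Ideal.add_mem _ (h2 h1) (hcg j)
    have e : f.coeff j - (X * r q).coeff j =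
        f.coeff j - (P q).coeff j + ((P q).coeff j - (X * r q).coeff j) := by ring
    rw [e]
    exact h3
  have hov : ∀ q ∈ sup T M, ∀ 𝔓 : HeightOneSpectrum (𝓞 L), Ov (𝔮 q) 𝔓 →
      (q : 𝓞 L) ∈ 𝔓.asIdeal := by
    intro q hq 𝔓 h
    have h1 := h _ (hgood q hq).2.2.2.2.2.2.1
    rw [map_natCast] at h1
    exact h1
  -- the lattice
  obtain ⟨Λ, hSD, hLat⟩ := hSDM 1 (∏ q ∈ sup T i, q) F L f θ hG hsq hmpos α hα (by
    intro 𝔓 h𝔓
    by_cases h : ∀ q ∈ sup T i, 𝔓 ≠ 𝔔 q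
    · exact absurd (hev 𝔓 h) h𝔓
    · push Not at h
      obtain ⟨q, hq, rfl⟩ := h
      have h1 := hov q (hsub hq) _ (hBig q (hsub hq)).1
      rw [← Finset.mul_prod_erase _ _ hq, Nat.cast_mul]
      exact Ideal.mul_mem_right _ _ h1)
  refine hcls _ hDev (hκ L f θ B N κ (sup T M \ sup T i) (T i) _ 𝔮 r P le_rfl hgood' hG
    hGF.fam.ht hN4 (fun q hq => hcon q (Finset.mem_sdiff.1 hq).1) hTi α Λ hα hN hLat ?_ hns)
  intro q hq
  have hqM : q ∈ sup T M := (Finset.mem_sdiff.1 (hTi hq)).1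
  have hqi : q ∉ sup T i := (Finset.mem_sdiff.1 (hTi hq)).2
  obtain ⟨hb, hs⟩ := sep_q le_rfl hgood hqM (hcg q hqM)
  have hpr : (𝔮 q).IsPrime := (hgood q hqM).2.2.2.2.2.1
  have hmq : (q : 𝓞 F) ∈ 𝔮 q := (hgood q hqM).2.2.2.2.2.2.1
  have hm : ((∏ q ∈ sup T i, q : ℕ) : 𝓞 F) ∉ 𝔮 q := by
    rw [Nat.cast_prod]
    intro h
    obtain ⟨q', hq', hq'm⟩ := (Ideal.IsPrime.prod_mem_iff (hp := hpr)).1 h
    exact two_primes hpr.ne_top (hqp q hqM) (hqp q' (hsub hq')) (fun e => hqi (e ▸ hq')) hmq hq'm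
  have hEv : ∀ 𝔓 : HeightOneSpectrum (𝓞 L), Ov (𝔮 q) 𝔓 → Ev 𝔓 α := by
    intro 𝔓 h𝔓
    refine hev 𝔓 fun q' hq' he => ?_
    have h1 : (q : 𝓞 L) ∈ 𝔓.asIdeal := hov q hqM 𝔓 h𝔓
    have h2 : (q' : 𝓞 L) ∈ 𝔓.asIdeal := by
      rw [he]
      exact hov q' (hsub hq') _ (hBig q' (hsub hq')).1
    exact two_primes 𝔓.isPrime.ne_top (hqp q hqM) (hqp q' (hsub hq')) (fun e => hqi (e ▸ hq'))
      h1 h2
  rw [← hTVI 1 (∏ q ∈ sup T i, q) F L f θ hG hsq hmpos α Λ hα hSD hLat (𝔮 q) hpr hb hm hs hEv,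
    Finset.mem_filter]
  constructor
  · intro h
    exact ⟨hq, h _ (hBig q hqM).1⟩
  · rintro ⟨-, h⟩
    obtain ⟨𝔓₁, 𝔓₂, a1, a2, a3, a4, a5, a6, a7⟩ :=
      hEXQ 1 W F L f θ (sup T M) 𝔮 r P le_rfl hG hsq hgood q hqM (hcg q hqM)
    have hQ : 𝔔 q = 𝔓₂ := by
      rcases a7 _ (hBig q hqM).1 with h1 | h1
      · have h2 := (hBig q hqM).2
        rw [h1] at h2
        exact absurd h2 a3.ne
      · exact h1
    refine hNS 1 W F L f θ (sup T M) 𝔮 r P le_rfl hG hsq hgood q hqM (hcg q hqM) α hα hN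
      (fun 𝔓 h𝔓 _ => hEv 𝔓 h𝔓) (fun 𝔓 h𝔓 hv => ?_)
    rcases a7 𝔓 h𝔓 with rfl | rfl
    · exact absurd hv a3.ne
    · rw [← hQ]
      exact h

end Pool.Agent.L0h65.SP
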